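import Pool.Agent.H88.Cortex

set_option autoImplicit false

namespace Pool.Agent.Results.MP_6331ea_an.Counter

open Pool.Agent.H88.Cortex

universe u

theorem result :
    ∃ (A : Type) (_ : NormedCommRing A) (_ : NormedAlgebra ℂ A) (_ : CompleteSpace A)
      (_ : NormOneClass A), SpectralPermanence.{u, 0} A ∧
        ∃ φ : A →ₐ[ℂ] ℂ, ¬ InCortex.{0, 0} A φ :=
  ⟨cone, inferInstance, inferInstance, inferInstance, ⟨norm_one_cone⟩, permanence, phi,
    fun h => not_extend (h _ res isometry_res.isClosedEmbedding)⟩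

end Pool.Agent.Results.MP_6331ea_an.Counter
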